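import Pool.Agent.Lib.helper8.Kneser2

set_option autoImplicit false

open Finset
open scoped Pointwise

namespace Pool.Agent.Results.MP_c3b97e_co.ZeroTwo

open Pool.Agent.Lib.helper8.Kneser

section
variable {G : Type} [AddCommGroup G] [Fintype G] [DecidableEq G]

theorem bound (A : Finset G) (h0 : ∀ a ∈ A, ∀ b ∈ A, a + b ≠ 0)
    (h1 : ∀ a ∈ A, ∀ b ∈ A, a + b ∉ A) :
    4 * A.card ≤ Fintype.card G ∨
      ∃ m, m % 4 = 3 ∧ m ∣ Fintype.card G ∧ 4 * m * A.card ≤ (m + 1) * Fintype.card G := by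
  rcases A.eq_empty_or_nonempty with rfl | hne
  · simp
  have k := kneser A (-A) hne hne.neg
  set H := st (A + -A) with hH
  have sH : IsSub H := st_sub _
  have nH : -H = H := by
    ext x
    simp only [mem_neg']
    exact ⟨fun h => by simpa using sH.neg h, sH.neg⟩
  have e1 : (-A + H).card = (A + H).card := by
    rw [← card_neg (A + H), neg_add, nH]
  have dj : Disjoint ((A ∪ -A) + H) (A + -A) := by
    refine disjoint_left.2 (fun z hz hz' => ?_)
    obtain ⟨s, hs, g, hg, rfl⟩ := mem_add.1 hz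
    have := mem_st.1 (sH.neg hg) _ hz'
    rw [show -g + (s + g) = s by abel] at this
    obtain ⟨a, ha, b, hb, rfl⟩ := mem_add.1 this
    rw [mem_neg'] at hb
    rcases mem_union.1 hs with hs | hs
    · exact h1 _ hs _ hb (by simpa using ha)
    · rw [mem_neg'] at hs
      exact h1 _ hs _ ha (by rwa [show -(a + b) + a = -b by abel])
  have dA : Disjoint A (-A) := disjoint_left.2 (fun z hz hz' =>
    h0 z hz (-z) (mem_neg'.1 hz') (by simp))
  have tot := card_le_univ (((A ∪ -A) + H) ∪ (A + -A))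
  rw [card_union_of_disjoint dj] at tot
  have u1 := card_le_card (sub_add sH (A ∪ -A))
  rw [card_union_of_disjoint dA, card_neg] at u1
  have u2 : ((A ∪ -A) + H).card ≤ (A + H).card + (-A + H).card := by
    rw [union_add]; exact card_union_le _ _
  obtain ⟨c, hc⟩ := Per.dvd sH _ _ rfl (per_add sH A)
  obtain ⟨c', hc'⟩ := Per.dvd sH _ _ rfl (per_add sH (A ∪ -A))
  obtain ⟨m, hm⟩ := Per.dvd sH _ _ rfl (sub_univ.per (subset_univ H))
  rw [card_univ] at hm
  have hp : 0 < H.card := card_pos.2 ⟨0, sH.zero⟩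
  rw [e1] at k u2
  rw [hc] at k u2
  rw [hc'] at tot u1 u2
  rw [hm] at tot ⊢
  have h2 : 2 * c + c' ≤ m + 1 := Nat.le_of_mul_le_mul_left (by nlinarith) hp
  have h4 : c' ≤ 2 * c := Nat.le_of_mul_le_mul_left (by nlinarith) hp
  by_cases h3 : 2 * c' ≤ m
  · left; nlinarith
  · right
    refine ⟨m, by omega, Dvd.intro_left _ rfl, ?_⟩
    have : 2 * c' = m + 1 := by omega
    calc 4 * m * A.card = 2 * m * (A.card + A.card) := by ring
      _ ≤ 2 * m * (H.card * c') := Nat.mul_le_mul_left _ u1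
      _ = (2 * c') * (H.card * m) := by ring
      _ = _ := by rw [this]
end

theorem low (n : ℕ) [NeZero n] (d e : ℕ) (hd : n = d * e) :
    ∃ A : Finset (ZMod n), (Disjoint {0} A ∧ Disjoint {0} (A + A) ∧ Disjoint A (A + A)) ∧
      A.card = ((d + 1) / 2 - (d + 3) / 4) * e := by
  have hd0 : 0 < d := Nat.pos_of_ne_zero (by rintro rfl; exact NeZero.ne n (by omega))
  have dv : d ∣ n := Dvd.intro _ hd.symm
  refine ⟨lift n d (Ico ((d + 3) / 4) ((d + 1) / 2)), ⟨?_, ?_, ?_⟩, ?_⟩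
  · rw [disjoint_singleton_left, mem_lift, mem_Ico, ZMod.val_zero, Nat.zero_mod]
    omega
  · rw [disjoint_singleton_left]
    intro h
    obtain ⟨a, ha, b, hb, h⟩ := mem_add.1 h
    rw [mem_lift, mem_Ico] at ha hb
    have := congrArg (fun x : ZMod n => x.val % d) h
    simp only [ZMod.val_zero, Nat.zero_mod] at this
    rw [val_add_mod dv, Nat.mod_eq_of_lt (by omega)] at this
    omega
  · refine disjoint_left.2 (fun z hz h => ?_)
    obtain ⟨a, ha, b, hb, rfl⟩ := mem_add.1 h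
    rw [mem_lift, mem_Ico] at ha hb hz
    rw [val_add_mod dv, Nat.mod_eq_of_lt (by omega)] at hz
    omega
  · rw [card_lift hd (fun x hx => by rw [mem_Ico] at hx; omega), Nat.card_Ico]

theorem result (n : ℕ) (hn : 0 < n) :
    (∀ p : ℕ, IsLeast {q : ℕ | q.Prime ∧ q ∣ n ∧ q % 4 = 3} p →
      IsGreatest {x : ℚ | ∃ A : Finset (ZMod n),
        (Disjoint {0} A ∧ Disjoint {0} (A + A) ∧ Disjoint A (A + A)) ∧ (A.card : ℚ) = x}
        ((1 + 1 / p) * n / 4)) ∧
    ((∀ q : ℕ, q.Prime → q ∣ n → q % 4 ≠ 3) →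
      IsGreatest {m : ℕ | ∃ A : Finset (ZMod n),
        (Disjoint {0} A ∧ Disjoint {0} (A + A) ∧ Disjoint A (A + A)) ∧ A.card = m} (n / 4)) := by
  have : NeZero n := ⟨hn.ne'⟩
  have bd : ∀ A : Finset (ZMod n),
      (Disjoint {0} A ∧ Disjoint {0} (A + A) ∧ Disjoint A (A + A)) →
      4 * A.card ≤ n ∨ ∃ m, m % 4 = 3 ∧ m ∣ n ∧ 4 * m * A.card ≤ (m + 1) * n := by
    intro A hA
    have := bound A (fun a ha b hb e => disjoint_singleton_left.1 hA.2.1 (e ▸ add_mem_add ha hb))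
      (fun a ha b hb h => disjoint_left.1 hA.2.2 h (add_mem_add ha hb))
    rwa [ZMod.card] at this
  refine ⟨fun p hp => ⟨?_, ?_⟩, fun h => ⟨?_, ?_⟩⟩
  · obtain ⟨⟨h1, ⟨e, he⟩, h3⟩, -⟩ := hp
    obtain ⟨A, hA, hc⟩ := low n p e he
    refine ⟨A, hA, ?_⟩
    obtain ⟨k, rfl⟩ : ∃ k, p = 4 * k + 3 := ⟨p / 4, by omega⟩
    rw [hc, show (4 * k + 3 + 1) / 2 - (4 * k + 3 + 3) / 4 = k + 1 by omega, he]
    push_cast
    field_simp
    ring
  · rintro _ ⟨A, hA, rfl⟩
    have p0 : (0 : ℚ) < p := by exact_mod_cast hp.1.1.pos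
    have n0' : (0 : ℚ) ≤ n := by positivity
    rcases bd A hA with h | ⟨m, h1, h2, h3⟩
    · have h' : (4 : ℚ) * A.card ≤ n := by exact_mod_cast h
      have : 0 ≤ 1 / (p : ℚ) * n := by positivity
      linarith
    · obtain ⟨q, q1, q2, q3⟩ := ex_prime_mod (Or.inr ⟨rfl, rfl⟩) m h1
      have m0 : 0 < m := by omega
      have pm : p ≤ m := (hp.2 ⟨q1, q2.trans h2, q3⟩).trans (Nat.le_of_dvd m0 q2)
      have h' : (4 : ℚ) * m * A.card ≤ (m + 1) * n := by exact_mod_cast h3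
      have m0' : (0 : ℚ) < m := by exact_mod_cast m0
      have e1 : (4 : ℚ) * A.card ≤ (1 + 1 / m) * n := by
        rw [show (1 + 1 / (m : ℚ)) * n = (m + 1) * n / m by field_simp, le_div_iff₀ m0']
        linarith
      have e2 : 1 / (m : ℚ) ≤ 1 / p := one_div_le_one_div_of_le p0 (by exact_mod_cast pm)
      have e3 := mul_le_mul_of_nonneg_right e2 n0'
      linarith
  · obtain ⟨A, hA, hc⟩ := low n n 1 (by omega)
    refine ⟨A, hA, ?_⟩
    have : n % 4 ≠ 3 := fun e => by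
      obtain ⟨q, q1, q2, q3⟩ := ex_prime_mod (Or.inr ⟨rfl, rfl⟩) n e
      exact h q q1 q2 q3
    obtain ⟨k, hk | hk | hk⟩ : ∃ k, n = 4 * k ∨ n = 4 * k + 1 ∨ n = 4 * k + 2 :=
      ⟨n / 4, by omega⟩ <;> omega
  · rintro _ ⟨A, hA, rfl⟩
    rcases bd A hA with h1 | ⟨m, h1, h2, -⟩
    · omega
    · obtain ⟨q, q1, q2, q3⟩ := ex_prime_mod (Or.inr ⟨rfl, rfl⟩) m h1
      exact absurd q3 (h q q1 (q2.trans h2))

end Pool.Agent.Results.MP_c3b97e_co.ZeroTwo
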